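import Pool.Agent.W95.EQ.Stm

/-!
# The law of atoms
-/

set_option autoImplicit false

open Polynomial Topology Filter MeasureTheory
open scoped ENNReal

namespace Pool.Agent.W589.EQ.ATL

open Pool.Agent.W95.BK Pool.Agent.W95.EQ

universe u

theorem main : S_PF.{u} → S_NU.{u} → S_T2.{u} → S_ATL.{u} := by
  classical
  intro hPF hNU hT2 K _ _ _ R ρ hρ hinv o
  obtain ⟨nc, nn, nz, -⟩ := hNU K o
  obtain ⟨pfin, pone, pcont⟩ := hPF K R
  have hT : T2Space (P1B K) := (hT2 K).2.2.1
  -- the test functions
  let φ : ℕ → C(P1B K, ℝ) := fun k =>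
    ⟨fun x => max 0 (1 - k * nu o x), continuous_const.max (continuous_const.sub
      (continuous_const.mul nc))⟩
  have hφ : ∀ k x, φ k x = max 0 (1 - k * nu o x) := fun _ _ => rfl
  have h0 : ∀ k x, 0 ≤ φ k x := fun k x => le_max_left _ _
  have h1 : ∀ k x, φ k x ≤ 1 := by
    intro k x
    rw [hφ]
    refine max_le zero_le_one ?_
    have : 0 ≤ (k : ℝ) * nu o x := mul_nonneg (Nat.cast_nonneg k) (nn x)
    linarith
  have hlim : ∀ x, Tendsto (fun k => φ k x) atTop (𝓝 (if x = pt o then 1 else 0)) := by
    intro x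
    by_cases hx : x = pt o
    · rw [if_pos hx]
      have : ∀ k, φ k x = 1 := by
        intro k
        rw [hφ, (nz x).mpr hx, mul_zero, sub_zero, max_eq_right zero_le_one]
      simp only [this]
      exact tendsto_const_nhds
    · rw [if_neg hx]
      have hpos : 0 < nu o x := lt_of_le_of_ne (nn x) fun h => hx ((nz x).mp h.symm)
      refine tendsto_const_nhds.congr' ?_
      obtain ⟨N, hN⟩ := exists_nat_ge (1 / nu o x)
      filter_upwards [eventually_ge_atTop N] with k hk
      rw [hφ, max_eq_left]
      have h2 : 1 / nu o x ≤ k := hN.trans (by exact_mod_cast hk)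
      rw [div_le_iff₀ hpos] at h2
      linarith
  -- the left hand side
  have hL : Tendsto (fun k => ∫ x, φ k x ∂ρ) atTop (𝓝 (ρ.real {pt o})) := by
    have e : ρ.real {pt o} = ∫ x, (if x = pt o then (1 : ℝ) else 0) ∂ρ := by
      have : (fun x : P1B K => if x = pt o then (1 : ℝ) else 0) =
          Set.indicator {pt o} (fun _ => (1 : ℝ)) := by
        ext x
        simp [Set.indicator_apply]
      rw [this, integral_indicator_const _ (measurableSet_singleton _), smul_eq_mul, mul_one]
    rw [e]
    refine tendsto_integral_of_dominated_convergence (fun _ => (1 : ℝ))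
      (fun k => (φ k).continuous.aestronglyMeasurable) (integrable_const _)
      (fun k => Eventually.of_forall fun x => ?_) (Eventually.of_forall hlim)
    rw [Real.norm_eq_abs, abs_of_nonneg (h0 k x)]
    exact h1 k x
  -- finite sums
  have hsum : ∀ (g : P1B K → ℝ) (x : P1B K), pushFun R g x =
      ∑ y ∈ (pfin x).toFinset, (localDeg R y : ℝ) * g y := by
    intro g x
    unfold Pool.Agent.W95.BK.pushFun
    rw [finsum_mem_eq_finite_toFinset_sum _ (pfin x)]
  have hplim : ∀ x, Tendsto (fun k => pushFun R (φ k) x) atTop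
      (𝓝 (if x = R.act (pt o) then (localDeg R (pt o) : ℝ) else 0)) := by
    intro x
    have h2 : Tendsto (fun k => ∑ y ∈ (pfin x).toFinset, (localDeg R y : ℝ) * φ k y) atTop
        (𝓝 (∑ y ∈ (pfin x).toFinset, (localDeg R y : ℝ) * (if y = pt o then 1 else 0))) :=
      tendsto_finsetSum _ fun y _ => (hlim y).const_mul _
    have h3 : (∑ y ∈ (pfin x).toFinset, (localDeg R y : ℝ) * (if y = pt o then 1 else 0)) =
        if x = R.act (pt o) then (localDeg R (pt o) : ℝ) else 0 := by
      simp only [mul_ite, mul_one, mul_zero]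
      rw [Finset.sum_ite_eq']
      congr 1
      simp only [Set.Finite.mem_toFinset, eq_iff_iff]
      exact ⟨fun h => h.symm, fun h => h.symm⟩
    rw [h3] at h2
    simp only [hsum]
    exact h2
  have hR : Tendsto (fun k => ∫ x, pushFun R (φ k) x ∂ρ) atTop
      (𝓝 ((localDeg R (pt o) : ℝ) * ρ.real {R.act (pt o)})) := by
    have e : (localDeg R (pt o) : ℝ) * ρ.real {R.act (pt o)} =
        ∫ x, (if x = R.act (pt o) then (localDeg R (pt o) : ℝ) else 0) ∂ρ := by
      have : (fun x : P1B K => if x = R.act (pt o) then (localDeg R (pt o) : ℝ) else 0) =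
          Set.indicator {R.act (pt o)} (fun _ => (localDeg R (pt o) : ℝ)) := by
        ext x
        simp [Set.indicator_apply]
      rw [this, integral_indicator_const _ (measurableSet_singleton _), smul_eq_mul, mul_comm]
    rw [e]
    refine tendsto_integral_of_dominated_convergence (fun _ => (R.d : ℝ))
      (fun k => ((pcont (φ k)).2).aestronglyMeasurable) (integrable_const _)
      (fun k => Eventually.of_forall fun x => ?_) (Eventually.of_forall hplim)
    rw [← pone x, hsum, hsum, Real.norm_eq_abs, abs_of_nonneg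
      (Finset.sum_nonneg fun y _ => mul_nonneg (Nat.cast_nonneg _) (h0 k y))]
    exact Finset.sum_le_sum fun y _ => mul_le_mul_of_nonneg_left (h1 k y) (Nat.cast_nonneg _)
  have hL2 : Tendsto (fun k => ∫ x, pushFun R (φ k) x ∂ρ) atTop
      (𝓝 ((R.d : ℝ) * ρ.real {pt o})) := by
    have : ∀ k, ∫ x, pushFun R (φ k) x ∂ρ = (R.d : ℝ) * ∫ x, φ k x ∂ρ := fun k => hinv (φ k)
    simp only [this]
    exact hL.const_mul _
  exact tendsto_nhds_unique hL2 hR

end Pool.Agent.W589.EQ.ATL
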